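import Pool.Agent.Y570.OS.Main
import Pool.Agent.H671R2.Search

/-!
# Approximation of the obstacle number
-/

set_option autoImplicit false

namespace Pool.Agent.Y570.OS

open Pool.Agent.NPC Pool.Agent.NPC.R671 Pool.Agent.H622R2 Pool.Agent.H679R2 Pool.Agent.H670R5

/-- There is a polynomial-time algorithm with the following properties. If for some graph its output
is a number `a` then this graph has a representation with at most `a` obstacles of the class `𝒪'`. If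
a graph has a representation with at most `k` obstacles of the class `𝒪` then the output is a number
`a ≤ ρ k`. (For `𝒪' = 𝒪`: the algorithm approximates the obstacle number with ratio `ρ`.) -/
def Approximable (𝒪 𝒪' : Set Pl → Prop) (ρ : ℝ) : Prop :=
  ∃ A : List Bool → List Bool, PolyTime A ∧ ∀ I : List ℕ × List (ℕ × ℕ),
    (∀ a : ℕ, A (bits I) = bits a → ObsNumLE 𝒪' (I, a)) ∧
    ∀ k : ℕ, ObsNumLE 𝒪 (I, k) → ∃ a : ℕ, A (bits I) = bits a ∧ (a : ℝ) ≤ ρ * k

theorem closed_preconnected {P : Set Pl} (h : ClosedPolygon P) : IsPreconnected P := by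
  obtain ⟨l, C, -, h2, -, rfl⟩ := h
  exact (side_preconnected h2).closure

theorem obs_mono {𝒪 𝒪' : Set Pl → Prop} (h : ∀ P, 𝒪 P → 𝒪' P) {I : List ℕ × List (ℕ × ℕ)}
    {k k' : ℕ} (hk : k ≤ k') (h1 : ObsNumLE 𝒪 (I, k)) : ObsNumLE 𝒪' (I, k') := by
  obtain ⟨p, O, h2, h3, h4⟩ := h1
  exact ⟨p, O, le_trans h2 hk, fun P hP => h P (h3 P hP), h4⟩

theorem sat_obs {𝒪 : Set Pl → Prop} (h1 : ∀ P, ClosedPolygon P → 𝒪 P)
    (φ : List (Lit ℕ × Lit ℕ × Lit ℕ)) (h : SAT3 φ) : ObsNumLE 𝒪 (red5 φ, 1) :=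
  obs_mono h1 le_rfl
    ((iff_obs allSt ClosedPolygon (fun _ h => h) (fun _ h => closed_preconnected h) φ).1 h)

theorem obs_sat {𝒪 : Set Pl → Prop} (h2 : ∀ P, 𝒪 P → IsPreconnected P)
    (φ : List (Lit ℕ × Lit ℕ × Lit ℕ)) (h : ObsNumLE 𝒪 (red5 φ, 1)) : SAT3 φ :=
  (iff_obs allSt (fun P => IsPreconnected P) (fun _ h => closed_preconnected h) (fun _ h => h) φ).2
    (obs_mono h2 le_rfl h)

theorem hard_two {𝒪 : Set Pl → Prop} (h1 : ∀ P, ClosedPolygon P → 𝒪 P)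
    (h2 : ∀ P, 𝒪 P → IsPreconnected P) :
    HardI (fun I => TwoCopies I ∧ ObsNumLE 𝒪 (I, 1)) :=
  hardI_SAT3.trans allSt.poly fun φ =>
    ⟨fun h => ⟨two_red5 φ, sat_obs h1 φ h⟩, fun h => obs_sat h2 φ h.2⟩

theorem approx_hard {𝒪 𝒪' : Set Pl → Prop} (h1 : ∀ P, ClosedPolygon P → 𝒪 P)
    (h2 : ∀ P, 𝒪' P → IsPreconnected P) {ρ : ℝ} (hρ : ρ < 2) (h : Approximable 𝒪 𝒪' ρ) :
    PEqNP := by
  obtain ⟨A, hA, hA'⟩ := h
  intro L hL
  obtain ⟨g, hg, hgL⟩ := hardI_SAT3 L hL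
  have hf : PolyTime (fun w => bits (red5 (g w))) := PC.toPolyTime_bits allSt.poly g hg
  have hf' := poly_of_polyTime hf
  have hA1 := poly_of_polyTime hA
  refine ⟨fun w => [(unbits ℕ (A (bits (red5 (g w))))).any (fun b => decide (b ≤ 1))],
    polyTime_of_poly ?_, fun w => ?_⟩
  · refine NPC.Poly.optAny_fp (o := fun w => unbits ℕ (A (bits (red5 (g w)))))
      (h := fun _ b => decide (b ≤ 1)) (poly_unbits.comp (hA1.comp hf')) ?_
    exact NPC.Poly.decide_le (NPC.Poly.snd NPC.Poly.id) (NPC.Poly.const 1)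
  · change w ∈ L ↔ [(unbits ℕ (A (bits (red5 (g w))))).any (fun b => decide (b ≤ 1))] = [true]
    rw [hgL w]
    obtain ⟨h3, h4⟩ := hA' (red5 (g w))
    simp only [List.cons.injEq, and_true, Option.any_eq_true, decide_eq_true_eq]
    constructor
    · intro hs
      obtain ⟨a, h5, h6⟩ := h4 1 (sat_obs h1 _ hs)
      refine ⟨a, by rw [h5, unbits_bits], ?_⟩
      have h7 : (a : ℝ) < 2 := by
        have : ρ * ((1 : ℕ) : ℝ) = ρ := by simp
        linarith
      have h8 : a < 2 := by exact_mod_cast h7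
      omega
    · rintro ⟨b, h5, h6⟩
      have h7 := h3 b (bits_of_unbits h5).symm
      exact obs_sat h2 _ (obs_mono (fun _ h => h) h6 h7)

end Pool.Agent.Y570.OS
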