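import Pool.Agent.H670R5.St3
import Pool.Agent.NPC.Dec

/-!
# Decision problems between outside (inside) obstacles and one connected obstacle
-/

set_option autoImplicit false

namespace Pool.Agent.Y570.OS

open Pool.Agent.NPC Pool.Agent.H679R2 Pool.Agent.H670R5

/-- The graph has a representation with one connected obstacle: an arbitrary connected set of
points of the plane, which need not be open, closed, bounded or bounded by a polygon (and may be
empty). -/
def ConnectedObs (I : List ℕ × List (ℕ × ℕ)) : Prop :=
  ∃ (C : Set Pl) (p : {v : ℕ // v ∈ I.1} → Pl), IsPreconnected C ∧ VisRep (toGraph I) p C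

/-- The graph has a representation with one obstacle of the class `𝒪`. -/
def ObsOf (𝒪 : Set Pl → Prop) (I : List ℕ × List (ℕ × ℕ)) : Prop :=
  ∃ (C : Set Pl) (p : {v : ℕ // v ∈ I.1} → Pl), 𝒪 C ∧ VisRep (toGraph I) p C

/-- The graph has a strong outside-obstacle representation: an outside-obstacle representation with
the interior `C` of a simple polygon, in which the same points also represent the graph with respect
to the closed polygon (the closure of `C`). -/
def StrongOutsideObs (I : List ℕ × List (ℕ × ℕ)) : Prop :=
  ∃ (l : List Pl) (C : Set Pl) (p : {v : ℕ // v ∈ I.1} → Pl),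
    IsSimplePolygon l ∧ IsSideOf l C ∧ Bornology.IsBounded C ∧ VisRep (toGraph I) p C ∧
    VisRep (toGraph I) p (closure C) ∧
    ∀ x ∈ C, ¬ Bornology.IsBounded (connectedComponentIn (drawing (toGraph I) p)ᶜ x)

/-- The graph given by the input consists of two disjoint copies of one graph, without edges
between the copies. -/
def TwoCopies (I : List ℕ × List (ℕ × ℕ)) : Prop :=
  ∃ (m : ℕ) (E : List (ℕ × ℕ)), (∀ e ∈ E, e.1 < m ∧ e.2 < m) ∧
    I = (List.range (2 * m), E ++ E.map (fun q => (q.1 + m, q.2 + m)))

/-- The decision problem `P` lies between `Q` and the representation with one connected obstacle: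
yes-instances of `Q` are yes-instances of `P`, and all yes-instances of `P` have a representation
with one connected obstacle. -/
def IsBetween (Q P : List ℕ × List (ℕ × ℕ) → Prop) : Prop :=
  (∀ I, Q I → P I) ∧ ∀ I, P I → ConnectedObs I

/-- There is a polynomial-time algorithm which answers yes on all instances with `Q` and does not
answer yes on the instances without `R` (it may answer anything on all other instances). -/
def Separable (Q R : List ℕ × List (ℕ × ℕ) → Prop) : Prop :=
  ∃ A : List Bool → List Bool, PolyTime A ∧ ∀ I,
    (Q I → A (bits I) = [true]) ∧ (¬ R I → A (bits I) ≠ [true])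

/-- `P = NP` -/
def PEqNP : Prop := ∀ L : Set (List Bool), InNP L → InP L

end Pool.Agent.Y570.OS
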