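import Pool.Agent.Y570.OS.Defs
import Pool.Agent.H670R5.Main

/-!
# Decision problems between outside obstacles and one connected obstacle: hardness
-/

set_option autoImplicit false

namespace Pool.Agent.Y570.OS

open Pool.Agent.NPC Pool.Agent.H679R2 Pool.Agent.H670R5

theorem conn_red5 (φ : List (Lit ℕ × Lit ℕ × Lit ℕ)) (h : ConnectedObs (red5 φ)) : SAT3 φ := by
  obtain ⟨C, p, h1, h2⟩ := h
  exact backward allSt φ C h1 p h2

theorem strong_red5 (φ : List (Lit ℕ × Lit ℕ × Lit ℕ)) (h : SAT3 φ) :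
    StrongOutsideObs (red5 φ) := by
  obtain ⟨l, P, p, h1, h2, h3, h4⟩ := forward allSt φ h
  have hc := allSt.comp l P h1
  refine ⟨l, interior P, p, h1.simple, hc.1, hc.2.1, h3, ?_, h4⟩
  rw [hc.2.2]
  exact h2

theorem two_red5 (φ : List (Lit ℕ × Lit ℕ × Lit ℕ)) : TwoCopies (red5 φ) := by
  refine ⟨sz (nOf (occ φ)) (TOf (occ φ)), edg (nOf (occ φ)) (TOf (occ φ)), ?_, rfl⟩
  intro e he
  unfold edg at he
  obtain ⟨h1, -⟩ := List.mem_filter.1 he
  obtain ⟨v, hv, hv'⟩ := List.mem_flatMap.1 h1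
  obtain ⟨u, hu, rfl⟩ := List.mem_map.1 hv'
  rw [List.mem_range] at hv hu
  simp only
  omega


theorem iff5 {P : List ℕ × List (ℕ × ℕ) → Prop}
    (hP : IsBetween (fun I => TwoCopies I ∧ StrongOutsideObs I) P)
    (φ : List (Lit ℕ × Lit ℕ × Lit ℕ)) : SAT3 φ ↔ P (red5 φ) :=
  ⟨fun h => hP.1 _ ⟨two_red5 φ, strong_red5 φ h⟩, fun h => conn_red5 φ (hP.2 _ h)⟩

theorem hard5 {P : List ℕ × List (ℕ × ℕ) → Prop}
    (hP : IsBetween (fun I => TwoCopies I ∧ StrongOutsideObs I) P) : HardI P :=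
  hardI_SAT3.trans allSt.poly (iff5 hP)

theorem strong_out {I : List ℕ × List (ℕ × ℕ)} (h : StrongOutsideObs I) : OutsideObs I := by
  obtain ⟨l, C, p, h1, h2, h3, h4, _, h5⟩ := h
  exact ⟨l, C, p, h1, h2, h3, h4, h5⟩

theorem out_single {I : List ℕ × List (ℕ × ℕ)} (h : OutsideObs I) : SingleObs I := by
  obtain ⟨l, C, p, h1, h2, _, h3, _⟩ := h
  exact ⟨l, C, p, h1, h2, h3⟩

theorem single_conn {I : List ℕ × List (ℕ × ℕ)} (h : SingleObs I) : ConnectedObs I := by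
  obtain ⟨l, C, p, _, h2, h3⟩ := h
  exact ⟨C, p, side_preconnected h2, h3⟩

theorem between_out : IsBetween (fun I => TwoCopies I ∧ StrongOutsideObs I) OutsideObs :=
  ⟨fun _ h => strong_out h.2, fun _ h => single_conn (out_single h)⟩

theorem between_single : IsBetween (fun I => TwoCopies I ∧ StrongOutsideObs I) SingleObs :=
  ⟨fun _ h => out_single (strong_out h.2), fun _ h => single_conn h⟩

/-- restriction to two copies -/
theorem between_two {P : List ℕ × List (ℕ × ℕ) → Prop}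
    (hP : IsBetween (fun I => TwoCopies I ∧ StrongOutsideObs I) P) :
    IsBetween (fun I => TwoCopies I ∧ StrongOutsideObs I) (fun I => TwoCopies I ∧ P I) :=
  ⟨fun I h => ⟨h.1, hP.1 I h⟩, fun I h => hP.2 I h.2⟩

/-- classes of obstacles -/
theorem between_class {𝒪 : Set Pl → Prop}
    (h1 : (∀ l C, IsSimplePolygon l → IsSideOf l C → Bornology.IsBounded C → 𝒪 C) ∨
      ∀ C, ClosedPolygon C → 𝒪 C)
    (h2 : ∀ C, 𝒪 C → IsPreconnected C) :
    IsBetween (fun I => TwoCopies I ∧ StrongOutsideObs I) (ObsOf 𝒪) := by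
  refine ⟨fun I h => ?_, fun I h => ?_⟩
  · obtain ⟨_, l, C, p, h3, h4, h5, h6, h7, _⟩ := h
    rcases h1 with h1 | h1
    · exact ⟨C, p, h1 l C h3 h4 h5, h6⟩
    · exact ⟨closure C, p, h1 _ ⟨l, C, h3, h4, h5, rfl⟩, h7⟩
  · obtain ⟨C, p, h3, h4⟩ := h
    exact ⟨C, p, h2 C h3, h4⟩

/-- the promise version, in general -/
theorem sep_of {Q R : List ℕ × List (ℕ × ℕ) → Prop}
    {f : List (Lit ℕ × Lit ℕ × Lit ℕ) → List ℕ × List (ℕ × ℕ)} (hf : Poly f)
    (h1 : ∀ φ, SAT3 φ → Q (f φ)) (h2 : ∀ φ, R (f φ) → SAT3 φ) (h : Separable Q R) : PEqNP := by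
  obtain ⟨A, hA, hA'⟩ := h
  intro L hL
  obtain ⟨g, hg, hgL⟩ := hardI_SAT3 L hL
  refine ⟨fun w => A (bits (f (g w))), Pool.Agent.H642R2.TMSim.polyTime_comp hA
    (PC.toPolyTime_bits hf g hg), fun w => ?_⟩
  change w ∈ L ↔ A (bits (f (g w))) = [true]
  rw [hgL w]
  constructor
  · intro hw
    exact (hA' _).1 (h1 _ hw)
  · intro h4
    by_contra hw
    exact (hA' _).2 (fun h5 => hw (h2 _ h5)) h4

theorem sep_out (h : Separable (fun I => TwoCopies I ∧ StrongOutsideObs I) ConnectedObs) :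
    PEqNP :=
  sep_of allSt.poly (fun φ h => ⟨two_red5 φ, strong_red5 φ h⟩) conn_red5 h

theorem sep_out' (h : Separable OutsideObs ConnectedObs) : PEqNP :=
  sep_of allSt.poly (fun φ h => strong_out (strong_red5 φ h)) conn_red5 h

theorem out_conn {I : List ℕ × List (ℕ × ℕ)} (h : OutsideObs I) : ConnectedObs I :=
  single_conn (out_single h)

theorem sep_mono {Q R R' : List ℕ × List (ℕ × ℕ) → Prop} (h : Separable Q R)
    (h1 : ∀ I, R I → R' I) : Separable Q R' := by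
  obtain ⟨A, hA, h2⟩ := h
  exact ⟨A, hA, fun I => ⟨(h2 I).1, fun h3 => (h2 I).2 fun h4 => h3 (h1 I h4)⟩⟩

end Pool.Agent.Y570.OS
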