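import Pool.Agent.Y570.OS.Main
import Pool.Agent.H670R5.MainI

/-!
# Decision problems between inside obstacles and one connected obstacle: hardness
-/

set_option autoImplicit false

namespace Pool.Agent.Y570.OS

open Pool.Agent.NPC Pool.Agent.H679R2 Pool.Agent.H670R5

theorem conn_red6 (φ : List (Lit ℕ × Lit ℕ × Lit ℕ)) (h : ConnectedObs (red6 φ)) : SAT3 φ := by
  obtain ⟨C, p, h1, h2⟩ := h
  exact backwardI allStI φ C h1 p h2

theorem iff6 {P : List ℕ × List (ℕ × ℕ) → Prop} (hP : IsBetween InsideObs P)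
    (φ : List (Lit ℕ × Lit ℕ × Lit ℕ)) : SAT3 φ ↔ P (red6 φ) :=
  ⟨fun h => hP.1 _ ((iff_inside allStI φ).1 h), fun h => conn_red6 φ (hP.2 _ h)⟩

theorem hard6 {P : List ℕ × List (ℕ × ℕ) → Prop} (hP : IsBetween InsideObs P) : HardI P :=
  hardI_SAT3.trans allStI.poly (iff6 hP)

theorem in_single {I : List ℕ × List (ℕ × ℕ)} (h : InsideObs I) : SingleObs I := by
  obtain ⟨l, C, p, h1, h2, _, h3, _⟩ := h
  exact ⟨l, C, p, h1, h2, h3⟩

theorem in_conn {I : List ℕ × List (ℕ × ℕ)} (h : InsideObs I) : ConnectedObs I :=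
  single_conn (in_single h)

theorem between_in : IsBetween InsideObs InsideObs :=
  ⟨fun _ h => h, fun _ h => single_conn (in_single h)⟩

theorem between_single_in : IsBetween InsideObs SingleObs :=
  ⟨fun _ h => in_single h, fun _ h => single_conn h⟩

theorem sep_in (h : Separable InsideObs ConnectedObs) : PEqNP :=
  sep_of allStI.poly (fun φ h => (iff_inside allStI φ).1 h) conn_red6 h

end Pool.Agent.Y570.OS
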